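import Pool.Agent.Lib.MP_10cdc7_ag.Main3

/-!
# Injectivity of the tropical Abel-Prym map over 2-connected metric graphs

Let `π : X → Y` be a free double cover of metric graphs with covering involution `ι`, with `Y`
2-connected. If the Abel-Prym map `p ↦ [p - ι p]` is finite, then it is injective. (The
hypothesis of the question that `X` is not hyperelliptic is not needed.)
-/

namespace Pool.Agent.Results.MP_10cdc7_ag.AbelPrymInjective

open Pool.Agent.AbelPrym

universe u v

theorem result {X : Type u} {Y : Type v} [MetricSpace X] [MetricSpace Y]
    (hX : IsMetricGraph X) (_hY : IsMetricGraph Y)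
    (π : X → Y) (ι : X → X) (hπ : IsFreeDoubleCover π ι)
    (h2 : TwoConnected Y) (hfin : AbelPrymFinite ι) : AbelPrymInjective ι := by
  have := hX.compact
  have := hX.connected
  exact abelPrym_injective hπ h2 hfin

end Pool.Agent.Results.MP_10cdc7_ag.AbelPrymInjective
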